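import Pool.Agent.K4H40.NS.Spec

set_option autoImplicit false

namespace Pool.Agent.K4H40.NS

open MvPolynomial Module

noncomputable section

namespace H44

theorem lin_of_mono {n d : ℕ} {K : Type} [Field K] (D : R n K →ₗ[K] R n K) (N : Submodule K (R n K))
    (h : ∀ e : Fin n →₀ ℕ, e.degree = d → D (monomial e 1) ∈ N) : ∀ f ∈ hs n K d, D f ∈ N := by
  intro f hf
  rw [f.as_sum, map_sum]
  refine N.sum_mem (fun e he => ?_)
  have hd : e.degree = d := by
    by_contra hc
    exact mem_support_iff.1 he (((mem_homogeneousSubmodule d f).1 hf).coeff_eq_zero hc)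
  have e1 : monomial e (coeff e f) = (coeff e f) • monomial e (1 : K) := by
    rw [smul_monomial, smul_eq_mul, mul_one]
  rw [e1, map_smul]
  exact N.smul_mem _ (h e hd)

theorem deg_one {n : ℕ} {e : Fin n →₀ ℕ} (h : e.degree = 1) : ∃ l, e = Finsupp.single l 1 := by
  have h0 : e ≠ 0 := by
    rintro rfl
    simp at h
  obtain ⟨l, hl⟩ := Finsupp.ne_iff.1 h0
  have hle : Finsupp.single l 1 ≤ e := by
    rw [Finsupp.single_le_iff]
    exact Nat.one_le_iff_ne_zero.2 hl
  obtain ⟨e', rfl⟩ := exists_add_of_le hle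
  refine ⟨l, ?_⟩
  rw [map_add, Finsupp.degree_single] at h
  have : e'.degree = 0 := by omega
  rw [Finsupp.degree_eq_zero_iff] at this
  rw [this, add_zero]

end H44

open H44 in
theorem key : StKEY := by
  intro n k K _ I s hphi h hh hhJ
  by_contra hcon
  have star : ∀ x ∈ hs n K 1, ∀ y ∈ hs n K 1, ∀ g ∈ hs n K k, ∀ p ∈ hs n K k, ∀ q ∈ hs n K k,
      y * g - s.ω * p ∈ s.J → x * g - s.ω * q ∈ s.J → x * p - y * q ∈ s.J := by
    intro x hx y hy g hg p hp q hq h1 h2
    by_contra h3
    exact hcon ⟨x, hx, y, hy, g, hg, p, hp, q, hq, h1, h2, h3⟩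
  have hX : ∀ l : Fin n, (X l : R n K) ∈ hs n K 1 := fun l =>
    (mem_homogeneousSubmodule 1 _).2 (isHomogeneous_X K l)
  have hmon : ∀ (e : Fin n →₀ ℕ) (d : ℕ), e.degree = d → (monomial e (1 : K)) ∈ hs n K d := fun e d he =>
    (mem_homogeneousSubmodule d _).2 (isHomogeneous_monomial 1 he)
  have hXm : ∀ (l : Fin n) (e : Fin n →₀ ℕ), (X l : R n K) * monomial e 1 = monomial (e + Finsupp.single l 1) 1 := by
    intro l e
    rw [X, monomial_mul, one_mul, add_comm]
  have hA : ∀ e : Fin n →₀ ℕ, ∃ a : R n K, a ∈ hs n K k ∧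
      (e.degree = k + 1 → monomial e 1 - s.ω * a ∈ s.J) := by
    intro e
    by_cases he : e.degree = k + 1
    · obtain ⟨a, ha, hb⟩ := hphi (monomial e 1) (hmon e _ he)
      exact ⟨a, ha, fun _ => hb⟩
    · exact ⟨0, Submodule.zero_mem _, fun h => absurd h he⟩
  choose A hA1 hA2 using hA
  obtain ⟨φ, φm⟩ : ∃ φ : R n K →ₗ[K] R n K, ∀ e, φ (monomial e 1) = A e := by
    refine ⟨(basisMonomials (Fin n) K).constr K A, fun e => ?_⟩
    have := (basisMonomials (Fin n) K).constr_basis K A e
    rwa [coe_basisMonomials] at this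
  have hB : ∀ e : Fin n →₀ ℕ, ∃ b : R n K, ∀ (l : Fin n) (e' : Fin n →₀ ℕ), e'.degree = k + 1 →
      e = e' + Finsupp.single l 1 → b - X l * A e' ∈ s.J := by
    intro e
    by_cases hx : ∃ (l : Fin n) (e' : Fin n →₀ ℕ), e'.degree = k + 1 ∧ e = e' + Finsupp.single l 1
    · obtain ⟨m, e1, hd1, rfl⟩ := hx
      refine ⟨X m * A e1, fun l e' hd he => ?_⟩
      by_cases hlm : l = m
      · subst hlm
        have := add_right_cancel he
        rw [this, sub_self]
        exact Ideal.zero_mem _
      · have h1 : e1 l = e' l + 1 := by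
          have := DFunLike.congr_fun he l
          rw [Finsupp.add_apply, Finsupp.add_apply, Finsupp.single_eq_same,
            Finsupp.single_eq_of_ne hlm, add_zero] at this
          exact this
        have hle : Finsupp.single l 1 ≤ e1 := by
          rw [Finsupp.single_le_iff]; omega
        obtain ⟨e2, he2⟩ := exists_add_of_le hle
        rw [add_comm] at he2
        subst he2
        have he' : e' = e2 + Finsupp.single m 1 := by
          have : e' + Finsupp.single l 1 = (e2 + Finsupp.single m 1) + Finsupp.single l 1 := by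
            rw [← he, add_right_comm]
          exact add_right_cancel this
        have hd2 : e2.degree = k := by
          rw [map_add, Finsupp.degree_single] at hd1
          omega
        refine star (X m) (hX m) (X l) (hX l) (monomial e2 1) (hmon e2 k hd2) _ (hA1 _) _ (hA1 _) ?_ ?_
        · rw [hXm]; exact hA2 _ hd1
        · rw [hXm, ← he']; exact hA2 _ hd
    · exact ⟨0, fun l e' hd he => absurd ⟨l, e', hd, he⟩ hx⟩
  choose B hB' using hB
  obtain ⟨Φ, Φm⟩ : ∃ Φ : R n K →ₗ[K] R n K, ∀ e, Φ (monomial e 1) = B e := by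
    refine ⟨(basisMonomials (Fin n) K).constr K B, fun e => ?_⟩
    have := (basisMonomials (Fin n) K).constr_basis K B e
    rwa [coe_basisMonomials] at this
  have c4 : ∀ f ∈ hs n K (k + 1), φ f ∈ hs n K k :=
    lin_of_mono φ (hs n K k) (fun e _ => by rw [φm]; exact hA1 e)
  have c5 : ∀ f ∈ hs n K (k + 1), f - s.ω * φ f ∈ s.J := by
    intro f hf
    have := lin_of_mono (LinearMap.id - (LinearMap.mulLeft K s.ω) ∘ₗ φ) (s.J.restrictScalars K)
      (fun e he => by
        simp only [LinearMap.sub_apply, LinearMap.id_apply, LinearMap.comp_apply, LinearMap.mulLeft_apply, φm]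
        exact hA2 e he) f hf
    simpa using this
  have c2 : ∀ l, ∀ f ∈ hs n K (k + 1), Φ (X l * f) - X l * φ f ∈ s.J := by
    intro l f hf
    have := lin_of_mono (Φ ∘ₗ (LinearMap.mulLeft K (X l)) - (LinearMap.mulLeft K (X l)) ∘ₗ φ)
      (s.J.restrictScalars K)
      (fun e he => by
        simp only [LinearMap.sub_apply, LinearMap.comp_apply, LinearMap.mulLeft_apply, φm, hXm, Φm]
        exact hB' _ l e he rfl) f hf
    simpa using this
  have c3 : ∀ f ∈ hs n K (k + 1), ∀ x ∈ hs n K 1, Φ (x * f) - x * φ f ∈ s.J := by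
    intro f hf x hx
    have := lin_of_mono (Φ ∘ₗ (LinearMap.mulRight K f) - (LinearMap.mulRight K (φ f)))
      (s.J.restrictScalars K)
      (fun e he => by
        obtain ⟨l, rfl⟩ := deg_one he
        simp only [LinearMap.sub_apply, LinearMap.comp_apply, LinearMap.mulRight_apply]
        exact c2 l f hf) x hx
    simpa using this
  have hlef : ∀ a ∈ hs n K k, s.ω * a ∈ s.J → a ∈ s.J := s.lefschetz
  have hP : s.P ≤ (s.J.restrictScalars K).comap Φ := by
    refine sup_le ?_ ?_
    · refine Submodule.span_le.2 ?_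
      rintro _ ⟨x, hx, f, hf, rfl⟩
      obtain ⟨hf1, hf2⟩ := hf
      have hfJ : f ∈ s.J := Ideal.mem_sup_left hf1
      have h1 := c3 f hf2 x hx
      have h2 : φ f ∈ s.J := by
        refine hlef _ (c4 f hf2) ?_
        have := Ideal.sub_mem _ hfJ (c5 f hf2)
        rwa [sub_sub_cancel] at this
      have h3 : x * φ f ∈ s.J := Ideal.mul_mem_left _ _ h2
      have := Ideal.add_mem _ h1 h3
      rw [sub_add_cancel] at this
      exact this
    · refine Submodule.span_le.2 ?_
      rintro _ ⟨i, f, hf, rfl⟩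
      have h1 := c3 f hf (s.θ i) (s.θ_lin i)
      have h3 : s.θ i * φ f ∈ s.J :=
        Ideal.mul_mem_right _ _ (Ideal.mem_sup_right (Ideal.subset_span ⟨i, rfl⟩))
      have := Ideal.add_mem _ h1 h3
      rw [sub_add_cancel] at this
      exact this
  apply hhJ
  have h1 : Φ (s.ω * h) ∈ s.J := hP hh.1
  have h2 := c3 h hh.2 s.ω s.ω_lin
  have h3 : s.ω * φ h ∈ s.J := by
    have := Ideal.sub_mem _ h1 h2
    rwa [sub_sub_cancel] at this
  have := Ideal.add_mem _ (c5 h hh.2) h3
  rwa [sub_add_cancel] at this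

end

end Pool.Agent.K4H40.NS
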