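import Pool.Agent.K4H45.PC.Spec

namespace K4H45.PC
open Set Polynomial

/-- the identification of the plane with `ℂ`, translated by `-b` -/
noncomputable def toC (b : ℂ) : (ℝ × ℝ) ≃ₜ ℂ :=
  (Complex.equivRealProdCLM.symm.toHomeomorph).trans (Homeomorph.addRight (-b))

lemma toC_apply (b : ℂ) (p : ℝ × ℝ) : toC b p = (⟨p.1, p.2⟩ : ℂ) - b := by
  have h : Complex.equivRealProdCLM.symm p = (⟨p.1, p.2⟩ : ℂ) := rfl
  show Complex.equivRealProdCLM.symm p + -b = _
  rw [h, sub_eq_add_neg]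

lemma dist_le_norm (p r : ℝ × ℝ) (b : ℂ) : dist p r ≤ ‖toC b p - toC b r‖ := by
  rw [toC_apply, toC_apply]
  have e : ((⟨p.1, p.2⟩ : ℂ) - b) - ((⟨r.1, r.2⟩ : ℂ) - b) = (⟨p.1 - r.1, p.2 - r.2⟩ : ℂ) := by
    apply Complex.ext <;> simp
  rw [e, Prod.dist_eq, Real.dist_eq, Real.dist_eq]
  exact max_le (Complex.abs_re_le_norm (⟨p.1 - r.1, p.2 - r.2⟩ : ℂ))
    (Complex.abs_im_le_norm (⟨p.1 - r.1, p.2 - r.2⟩ : ℂ))

theorem fin (hC : S_CPX) (hB : S_BALL) : S_FIN := by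
  rintro n hn F ⟨⟨K, hKc, hKv, hKi, hF⟩, c, hcc, hci, hcl, hFc, hvar⟩
  set b : ℂ := c 0 with hb
  set K' : Set ℂ := toC b '' K with hK'
  have hfr : frontier K' = toC b '' frontier K := ((toC b).image_frontier K).symm
  -- the frontier is in the unit ball around the origin
  have hne : K.Nonempty := hKi.mono interior_subset
  have hfrb : ∀ p ∈ F, ‖toC b p‖ ≤ 1 := by
    intro p hp
    rw [hFc] at hp
    obtain ⟨s, hs, rfl⟩ := hp
    rw [toC_apply]
    have e : (⟨((c s).re, (c s).im).1, ((c s).re, (c s).im).2⟩ : ℂ) = c s := by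
      apply Complex.ext <;> simp
    rw [e]
    have h1 : edist (c s) (c 0) ≤ eVariationOn c (Icc 0 1) :=
      eVariationOn.edist_le c hs ⟨le_rfl, zero_le_one⟩
    rw [hvar, edist_dist] at h1
    have h2 : dist (c s) (c 0) ≤ 1 := by
      have := ENNReal.toReal_mono ENNReal.one_ne_top h1
      rwa [ENNReal.toReal_ofReal dist_nonneg, ENNReal.toReal_one] at this
    rwa [dist_eq_norm] at h2
  have hcomp : IsCompact K' := hKc.image (toC b).continuous
  have hconv : Convex ℝ K' := by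
    have h1 : Convex ℝ (Complex.equivRealProdCLM.symm '' K) :=
      hKv.is_linear_image (Complex.equivRealProdCLM.symm.toLinearEquiv.toLinearMap.isLinear)
    have h2 : K' = (fun z => -b + z) '' (Complex.equivRealProdCLM.symm '' K) := by
      rw [hK', image_image]
      refine image_congr fun p _ => ?_
      rw [toC_apply]
      have h : Complex.equivRealProdCLM.symm p = (⟨p.1, p.2⟩ : ℂ) := rfl
      show _ = -b + Complex.equivRealProdCLM.symm p
      rw [h]
      ring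
    rw [h2]
    exact h1.translate (-b)
  have hball : K' ⊆ Metric.closedBall 0 1 := by
    refine hB K' 0 hcomp hconv ?_
    rw [hfr]
    rintro _ ⟨p, hp, rfl⟩
    rw [mem_closedBall_zero_iff]
    exact hfrb p (hF ▸ hp)
  obtain ⟨P, Q, hP, hQ, h1, h2⟩ := hC n hn K' ⟨hcomp, hconv, hne.image _, hball⟩
  have hlin : (C (2:ℝ) * X - C 1 : ℝ[X]).natDegree ≤ 1 := by
    refine (natDegree_sub_le _ _).trans (max_le ?_ (by simp))
    exact (natDegree_C_mul_le _ _).trans (by simp)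
  have hdeg : ∀ R : ℝ[X], ∀ x : ℝ, R.natDegree ≤ n →
      (R.comp (C (2:ℝ) * X - C 1) + C x).natDegree ≤ n := by
    intro R x hR
    refine (natDegree_add_le _ _).trans (max_le ?_ (by simp))
    refine natDegree_comp_le.trans ?_
    calc R.natDegree * (C (2:ℝ) * X - C 1 : ℝ[X]).natDegree ≤ n * 1 := Nat.mul_le_mul hR hlin
      _ = n := mul_one n
  refine ⟨P.comp (C 2 * X - C 1) + C b.re, Q.comp (C 2 * X - C 1) + C b.im,
    hdeg _ _ hP, hdeg _ _ hQ, ?_⟩
  have hev : ∀ s : ℝ, toC b ((P.comp (C 2 * X - C 1) + C b.re).eval s,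
      (Q.comp (C 2 * X - C 1) + C b.im).eval s) = ⟨P.eval (2 * s - 1), Q.eval (2 * s - 1)⟩ := by
    intro s
    rw [toC_apply]
    apply Complex.ext <;> simp
  have hr : (0:ℝ) ≤ 1000000 / (n : ℝ) ^ 2 := by positivity
  refine Metric.hausdorffDist_le_of_mem_dist hr ?_ ?_
  · intro p hp
    obtain ⟨u, hu, hd⟩ := h2 (toC b p) (by rw [hfr]; exact ⟨p, hF ▸ hp, rfl⟩)
    refine ⟨_, ⟨(u + 1) / 2, ⟨by linarith [hu.1], by linarith [hu.2]⟩, rfl⟩, ?_⟩
    refine (dist_le_norm _ _ b).trans ?_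
    rw [hev]
    have e : 2 * ((u + 1) / 2) - 1 = u := by ring
    rw [e]
    exact hd
  · rintro _ ⟨s, hs, rfl⟩
    obtain ⟨z, hz, hd⟩ := h1 (2 * s - 1) ⟨by linarith [hs.1], by linarith [hs.2]⟩
    rw [hfr] at hz
    obtain ⟨p, hp, rfl⟩ := hz
    refine ⟨p, hF ▸ hp, ?_⟩
    rw [dist_comm]
    refine (dist_le_norm _ _ b).trans ?_
    rw [hev]
    exact hd

end K4H45.PC
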