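import Mathlib

/-!
# Choice of a new centre at distance `2/√3` from an uncovered point of `ℓ₁ ⊕₂ Y`

Here `Y` is a real inner product space.  The position of the point `x` relative to the centres is
given by the distances `α i` of the `ℓ₁`-parts and by the differences `β i` of the `Y`-parts, and
`δ i j` is the distance of the `ℓ₁`-parts of two centres.  The new centre is `x + (t e, b)`, with a
new coordinate vector `e`.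
-/

namespace Pool.Agent.K4H44.PCW

variable {Y : Type*} [NormedAddCommGroup Y] [InnerProductSpace ℝ Y]

/-- A point with `α² + t² - α t ≥ 1` is at distance at least two for every direction of `b`. -/
lemma far (α t : ℝ) (β b : Y) (hα : 0 ≤ α) (ht : 1 ≤ t) (hw : t ^ 2 + ‖b‖ ^ 2 = 4 / 3)
    (h1 : 1 ≤ α ^ 2 + t ^ 2 - α * t) (h2 : 2 / 3 ≤ α * t) (hr : 4 / 3 ≤ α ^ 2 + ‖β‖ ^ 2) :
    4 ≤ (α + t) ^ 2 + ‖β + b‖ ^ 2 := by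
  by_cases hc : 2 ≤ α + t
  · nlinarith [sq_nonneg ‖β + b‖]
  push Not at hc
  have hα1 : α < 1 := by linarith
  have h3 : (‖β‖ - ‖b‖) ^ 2 ≤ ‖β + b‖ ^ 2 := by
    have e1 : ‖β‖ - ‖b‖ ≤ ‖β + b‖ := by
      have := norm_sub_norm_le β (-b)
      rwa [norm_neg, sub_neg_eq_add] at this
    have e2 : ‖b‖ - ‖β‖ ≤ ‖β + b‖ := by
      have := norm_sub_norm_le b (-β)
      rw [norm_neg, sub_neg_eq_add, add_comm] at this
      exact this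
    exact sq_le_sq' (by linarith) e1
  set u₀ : ℝ := √(4 / 3 - α ^ 2) with hu0
  have hu0s : u₀ ^ 2 = 4 / 3 - α ^ 2 := Real.sq_sqrt (by nlinarith)
  have hu00 : 0 ≤ u₀ := Real.sqrt_nonneg _
  have hb0 : 0 ≤ ‖b‖ := norm_nonneg b
  have hβ0 : 0 ≤ ‖β‖ := norm_nonneg β
  have h4 : u₀ ≤ ‖β‖ := by
    by_contra hlt
    push Not at hlt
    nlinarith
  have h5 : ‖b‖ ≤ u₀ := by
    by_contra hlt
    push Not at hlt
    nlinarith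
  have h6 : u₀ * ‖b‖ ≤ α * t - 2 / 3 := by
    apply abs_le_of_sq_le_sq' _ (by linarith) |>.2
    have e1 : (u₀ * ‖b‖) ^ 2 = (4 / 3 - α ^ 2) * (4 / 3 - t ^ 2) := by
      rw [mul_pow, hu0s]; congr 1; linarith
    rw [e1]
    nlinarith
  have h7 : (u₀ - ‖b‖) ^ 2 ≤ (‖β‖ - ‖b‖) ^ 2 := by
    apply pow_le_pow_left₀ (by linarith) (by linarith)
  nlinarith

/-- Moving the direction towards the new coordinate. -/
lemma arc (a ℓ : ℝ) (v u : Y) (hℓ : 0 ≤ ℓ)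
    (h0 : 4 ≤ (a + √(4 / 3 - ℓ ^ 2)) ^ 2 + ‖v + ℓ • u‖ ^ 2) :
    ∃ τ : ℝ, 0 ≤ τ ∧ τ ≤ ℓ ∧ 4 ≤ (a + √(4 / 3 - τ ^ 2)) ^ 2 + ‖v + τ • u‖ ^ 2 ∧
      (τ = 0 ∨ (a + √(4 / 3 - τ ^ 2)) ^ 2 + ‖v + τ • u‖ ^ 2 = 4) := by
  by_cases hc : 4 ≤ (a + √(4 / 3 - (0:ℝ) ^ 2)) ^ 2 + ‖v + (0:ℝ) • u‖ ^ 2
  · exact ⟨0, le_rfl, hℓ, hc, Or.inl rfl⟩
  push Not at hc
  have hcont : ContinuousOn (fun τ : ℝ => (a + √(4 / 3 - τ ^ 2)) ^ 2 + ‖v + τ • u‖ ^ 2)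
      (Set.Icc 0 ℓ) := by
    apply Continuous.continuousOn
    fun_prop
  have := intermediate_value_Icc hℓ hcont
  obtain ⟨τ, hτ, h⟩ := this ⟨hc.le, h0⟩
  exact ⟨τ, hτ.1, hτ.2, h.ge, Or.inr h⟩

/-- Two centres which are close to each other in the `ℓ₁`-part. -/
lemma two_caps (p q s ℓ : ℝ) (P Q : Y) (hp : 0 ≤ p) (hq : 0 ≤ q) (hs : s = p + q) (hs1 : 1 ≤ s)
    (hD : p ^ 2 + p * q + q ^ 2 < 1) (hP : 4 / 3 ≤ p ^ 2 + ‖P‖ ^ 2) (hQ : 4 / 3 ≤ q ^ 2 + ‖Q‖ ^ 2)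
    (hPQ : ‖P - Q‖ ^ 2 ≤ 3) (hℓ : 0 < ℓ) (hℓs : ℓ ^ 2 = 4 / 3 - s ^ 2) :
    ∃ b : Y, ‖b‖ = ℓ ∧ 4 ≤ (p + s) ^ 2 + ‖P + b‖ ^ 2 ∧ 4 ≤ (q + s) ^ 2 + ‖Q + b‖ ^ 2 := by
  set γ : ℝ → Y := fun l => l • P + (1 - l) • Q with hγ
  have hγn : ∀ l : ℝ, ‖γ l‖ ^ 2 = l * ‖P‖ ^ 2 + (1 - l) * ‖Q‖ ^ 2 - l * (1 - l) * ‖P - Q‖ ^ 2 := by
    intro l
    rw [hγ, norm_add_sq_real, norm_sub_sq_real, norm_smul, norm_smul, inner_smul_left,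
      inner_smul_right, mul_pow, mul_pow, Real.norm_eq_abs, Real.norm_eq_abs, sq_abs, sq_abs]
    simp only [conj_trivial]
    ring
  have hs2 : 3 * s ^ 2 < 4 := by
    rw [hs]; nlinarith [sq_nonneg (p - q)]
  have key : ∀ l : ℝ, 0 ≤ l → l ≤ 1 →
      (2 / 3 - s * (l * p + (1 - l) * q)) ^ 2 < (ℓ * ‖γ l‖) ^ 2 := by
    intro l hl0 hl1
    have e1 : 4 / 3 - l * p ^ 2 - (1 - l) * q ^ 2 - 3 * l * (1 - l) * s ^ 2 ≤ ‖γ l‖ ^ 2 := by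
      rw [hγn]
      have h1 := mul_le_mul_of_nonneg_left hP hl0
      have h2 := mul_le_mul_of_nonneg_left hQ (sub_nonneg.2 hl1)
      have h3 : l * (1 - l) * ‖P - Q‖ ^ 2 ≤ l * (1 - l) * (3 * s ^ 2) := by
        apply mul_le_mul_of_nonneg_left _ (mul_nonneg hl0 (sub_nonneg.2 hl1))
        nlinarith
      nlinarith
    have e2 : (ℓ * ‖γ l‖) ^ 2 = (4 / 3 - s ^ 2) * ‖γ l‖ ^ 2 := by rw [mul_pow, hℓs]
    have e3 : 0 ≤ 4 / 3 - s ^ 2 := by nlinarith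
    have e4 := mul_le_mul_of_nonneg_left e1 e3
    rw [e2]
    refine lt_of_lt_of_le ?_ e4
    have e5 : (4 / 3 - s ^ 2) * (4 / 3 - l * p ^ 2 - (1 - l) * q ^ 2 - 3 * l * (1 - l) * s ^ 2) -
        (2 / 3 - s * (l * p + (1 - l) * q)) ^ 2 =
        4 / 3 * (1 - (p ^ 2 + p * q + q ^ 2)) * (1 - 3 * s ^ 2 * (l * (1 - l))) := by
      rw [hs]; ring
    have e6 : l * (1 - l) ≤ 1 / 4 := by nlinarith [sq_nonneg (l - 1 / 2)]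
    have e7 : 0 < 1 - 3 * s ^ 2 * (l * (1 - l)) := by
      have : 3 * s ^ 2 * (l * (1 - l)) ≤ 3 * s ^ 2 * (1 / 4) :=
        mul_le_mul_of_nonneg_left e6 (by positivity)
      linarith
    have e8 : 0 < 4 / 3 * (1 - (p ^ 2 + p * q + q ^ 2)) * (1 - 3 * s ^ 2 * (l * (1 - l))) :=
      mul_pos (mul_pos (by norm_num) (by linarith)) e7
    linarith
  have hγ0 : ∀ l : ℝ, 0 ≤ l → l ≤ 1 → 0 < ‖γ l‖ := by
    intro l hl0 hl1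
    have h1 := key l hl0 hl1
    have h2 : 0 < (ℓ * ‖γ l‖) ^ 2 := lt_of_le_of_lt (sq_nonneg _) h1
    rcases (norm_nonneg (γ l)).lt_or_eq with h | h
    · exact h
    · rw [← h] at h2; simp at h2
  have hlow : ∀ l : ℝ, 0 ≤ l → l ≤ 1 → 2 / 3 - s * (l * p + (1 - l) * q) ≤ ℓ * ‖γ l‖ := by
    intro l hl0 hl1
    exact (abs_le_of_sq_le_sq' (key l hl0 hl1).le (mul_nonneg hℓ.le (norm_nonneg _))).2
  set b : ℝ → Y := fun l => (ℓ / ‖γ l‖) • γ l with hb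
  have hbn : ∀ l : ℝ, 0 ≤ l → l ≤ 1 → ‖b l‖ = ℓ := by
    intro l hl0 hl1
    have h := hγ0 l hl0 hl1
    rw [hb]
    simp only
    rw [norm_smul, Real.norm_eq_abs, abs_of_pos (div_pos hℓ h)]
    field_simp
  set F : ℝ → Y → ℝ → ℝ := fun a V l => (a + s) ^ 2 + ‖V + b l‖ ^ 2 with hF
  have hFe : ∀ (a : ℝ) (V : Y) (l : ℝ), 0 ≤ l → l ≤ 1 →
      F a V l = a ^ 2 + ‖V‖ ^ 2 + 4 / 3 + 2 * a * s + 2 * inner ℝ V (b l) := by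
    intro a V l hl0 hl1
    rw [hF]
    simp only
    rw [norm_add_sq_real, hbn l hl0 hl1, hℓs]; ring
  have hcomb : ∀ l : ℝ, 0 ≤ l → l ≤ 1 → 4 ≤ l * F p P l + (1 - l) * F q Q l := by
    intro l hl0 hl1
    rw [hFe p P l hl0 hl1, hFe q Q l hl0 hl1]
    have e1 : l * inner ℝ P (b l) + (1 - l) * inner ℝ Q (b l) = ℓ * ‖γ l‖ := by
      have e2 : inner ℝ (γ l) (b l) = l * inner ℝ P (b l) + (1 - l) * inner ℝ Q (b l) := by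
        rw [hγ]
        simp only
        rw [inner_add_left, inner_smul_left, inner_smul_left]
        simp
      rw [← e2, hb]
      simp only
      rw [inner_smul_right, real_inner_self_eq_norm_sq]
      have h := (hγ0 l hl0 hl1).ne'
      field_simp
    have h1 := mul_le_mul_of_nonneg_left hP hl0
    have h2 := mul_le_mul_of_nonneg_left hQ (sub_nonneg.2 hl1)
    have h3 := hlow l hl0 hl1
    nlinarith
  have h11 := hcomb 1 (by norm_num) le_rfl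
  have h00 := hcomb 0 le_rfl (by norm_num)
  have h1F : 4 ≤ F p P 1 := by linarith
  have h0F : 4 ≤ F q Q 0 := by linarith
  by_cases hc1 : 4 ≤ F q Q 1
  · exact ⟨b 1, hbn 1 (by norm_num) le_rfl, h1F, hc1⟩
  by_cases hc2 : 4 ≤ F p P 0
  · exact ⟨b 0, hbn 0 le_rfl (by norm_num), hc2, h0F⟩
  push Not at hc1 hc2
  have hcont : ContinuousOn (fun l => F p P l - F q Q l) (Set.Icc (0:ℝ) 1) := by
    have hγc : Continuous γ := by rw [hγ]; fun_prop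
    have hbc : ContinuousOn b (Set.Icc (0:ℝ) 1) := by
      rw [hb]
      apply ContinuousOn.smul _ hγc.continuousOn
      apply ContinuousOn.div continuousOn_const hγc.norm.continuousOn
      intro l hl
      exact (hγ0 l hl.1 hl.2).ne'
    rw [hF]
    simp only
    fun_prop
  have := intermediate_value_Icc (zero_le_one) hcont
  obtain ⟨l, hl, h⟩ := this (show (0:ℝ) ∈ Set.Icc _ _ from ⟨by linarith, by linarith⟩)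
  have h5 := hcomb l hl.1 hl.2
  simp only at h
  have h6 : F q Q l = F p P l := by linarith
  rw [h6] at h5
  have h7 : 4 ≤ F p P l := by linarith
  exact ⟨b l, hbn l hl.1 hl.2, h7, by rw [← h6] at h7; exact h7⟩


/-! ### Inequalities -/

lemma four_le {x y : ℝ} (h : 2 ≤ x) : 4 ≤ x ^ 2 + y ^ 2 := by nlinarith [sq_nonneg y]

lemma three_le {p q : ℝ} (hq : 0 ≤ q) (h : p ^ 2 + p * q + q ^ 2 < 1) :
    3 * p + q ≤ 3 := by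
  nlinarith [sq_nonneg (p + q / 2 - 1), sq_nonneg q]

lemma sum_lt {p q : ℝ} (h : p ^ 2 + p * q + q ^ 2 < 1) : 3 * (p + q) ^ 2 < 4 := by
  nlinarith [sq_nonneg (p - q)]

lemma prod_le (R a : ℝ) (hR : R ^ 2 = 4 / 3) (hR0 : 0 < R) (ha : 0 ≤ a)
    (h : 1 ≤ 3 * a ^ 2) : 2 / 3 ≤ a * R := by
  by_contra hlt
  push Not at hlt
  have : (a * R) ^ 2 < (2 / 3) ^ 2 := pow_lt_pow_left₀ hlt (by positivity) (by norm_num)
  rw [mul_pow, hR] at this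
  linarith

lemma pos_case {α t τ z B : ℝ} (h1 : 4 / 3 ≤ α ^ 2 + B) (h2 : 0 ≤ τ * z) (h3 : 2 / 3 ≤ α * t)
    (h4 : t ^ 2 = 4 / 3 - τ ^ 2) : 4 ≤ (α + t) ^ 2 + (B + 2 * τ * z + τ ^ 2) := by
  have e : (α + t) ^ 2 + (B + 2 * τ * z + τ ^ 2) = α ^ 2 + 2 * (α * t) + t ^ 2 + B + 2 * (τ * z)
    + τ ^ 2 := by ring
  rw [e]; linarith

lemma neg_case {α s ℓ t τ z B : ℝ} (h1 : 4 ≤ (α + s) ^ 2 + (B + 2 * ℓ * z + ℓ ^ 2))
    (h2 : ℓ * z ≤ τ * z) (h3 : α * s ≤ α * t) (h4 : t ^ 2 = 4 / 3 - τ ^ 2)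
    (h5 : ℓ ^ 2 = 4 / 3 - s ^ 2) : 4 ≤ (α + t) ^ 2 + (B + 2 * τ * z + τ ^ 2) := by
  have e : (α + t) ^ 2 + (B + 2 * τ * z + τ ^ 2) = α ^ 2 + 2 * (α * t) + t ^ 2 + B + 2 * (τ * z)
    + τ ^ 2 := by ring
  have e' : (α + s) ^ 2 + (B + 2 * ℓ * z + ℓ ^ 2) = α ^ 2 + 2 * (α * s) + s ^ 2 + B + 2 * (ℓ * z)
    + ℓ ^ 2 := by ring
  rw [e]; rw [e'] at h1; linarith

lemma params (R a : ℝ) (hR : R ^ 2 = 4 / 3) (hR0 : 0 < R) (ha0 : 0 ≤ a) (ha3 : 3 * a ^ 2 < 1) :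
    ∃ T : ℝ, T ^ 2 - a * T + a ^ 2 = 1 ∧ 1 ≤ T ∧ 2 * a ≤ T ∧ T ≤ R ∧ 2 / 5 ≤ T - a := by
  have ha6 : a ≤ 3 / 5 := by nlinarith
  have hr2 : (√(1 - 3 / 4 * a ^ 2)) ^ 2 = 1 - 3 / 4 * a ^ 2 := Real.sq_sqrt (by linarith)
  have hr0 : 0 ≤ √(1 - 3 / 4 * a ^ 2) := Real.sqrt_nonneg _
  have hr1 : 1 - a / 2 ≤ √(1 - 3 / 4 * a ^ 2) := by
    apply Real.le_sqrt_of_sq_le
    nlinarith
  have hr3 : 3 / 2 * a ≤ √(1 - 3 / 4 * a ^ 2) := by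
    apply Real.le_sqrt_of_sq_le
    nlinarith
  have hr4 : √(1 - 3 / 4 * a ^ 2) ≤ R - a / 2 := by
    apply Real.sqrt_le_iff.2
    constructor
    · nlinarith
    · nlinarith [sq_nonneg (2 * a - R)]
  refine ⟨√(1 - 3 / 4 * a ^ 2) + a / 2, ?_, by linarith, by linarith, by linarith, by linarith⟩
  have e : (√(1 - 3 / 4 * a ^ 2) + a / 2) ^ 2 - a * (√(1 - 3 / 4 * a ^ 2) + a / 2) + a ^ 2 =
    (√(1 - 3 / 4 * a ^ 2)) ^ 2 + 3 / 4 * a ^ 2 := by ring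
  rw [e, hr2]; ring

lemma root_le (T a z : ℝ) (ha : 0 ≤ a) (hz : 0 ≤ z) (hTa : 2 / 5 ≤ T - a)
    (hT : T ^ 2 - a * T + a ^ 2 = 1) (h : 1 ≤ a ^ 2 + a * z + z ^ 2) : T - a ≤ z := by
  by_contra hlt
  push Not at hlt
  have e1 : 0 < (T - a - z) * (T - a + z) := mul_pos (by linarith) (by linarith)
  have e2 : 0 ≤ a * (T - a - z) := mul_nonneg ha (by linarith)
  nlinarith

lemma far_cond (T a z t : ℝ) (hT1 : 1 ≤ T) (hTa : T - a ≤ z) (h2a : 2 * a ≤ T)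
    (hT : T ^ 2 - a * T + a ^ 2 = 1) (hTt : T ≤ t) (ht : t ≤ 7 / 6) :
    1 ≤ z ^ 2 + t ^ 2 - z * t := by
  have e1 : 0 ≤ (z - a) * (z + a - T) := mul_nonneg (by linarith) (by linarith)
  rcases le_total z 2 with h7 | h7
  · have e2 : 0 ≤ (t - T) * (t + T - z) := mul_nonneg (by linarith) (by linarith)
    nlinarith
  · nlinarith

lemma slack_zero (a T X y : ℝ) (hT : T ^ 2 - a * T + a ^ 2 = 1) (hT4 : T ^ 2 ≤ 4 / 3)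
    (hX0 : 0 ≤ X) (hy0 : 0 ≤ y) (hX : 4 / 3 ≤ a ^ 2 + X ^ 2) (hy : y ^ 2 = 4 / 3 - T ^ 2) :
    4 ≤ (a + T) ^ 2 + (X + y) ^ 2 := by
  have h5 : 2 / 3 - a * T ≤ X * y := by
    apply (abs_le_of_sq_le_sq' _ (by positivity)).2
    have e1 : (X * y) ^ 2 = X ^ 2 * (4 / 3 - T ^ 2) := by rw [mul_pow, hy]
    rw [e1]
    have e2 : (4 / 3 - a ^ 2) * (4 / 3 - T ^ 2) ≤ X ^ 2 * (4 / 3 - T ^ 2) :=
      mul_le_mul_of_nonneg_right (by linarith) (by linarith)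
    have e3 : (4 / 3 - a ^ 2) * (4 / 3 - T ^ 2) - (2 / 3 - a * T) ^ 2 =
        4 / 3 * (1 - (T ^ 2 - a * T + a ^ 2)) := by ring
    rw [hT] at e3
    linarith
  have e : (a + T) ^ 2 + (X + y) ^ 2 = a ^ 2 + X ^ 2 + 2 * (a * T) + 2 * (X * y) + T ^ 2 + y ^ 2 := by
    ring
  rw [e]; linarith

/-- The adjustment of the direction: all other centres stay at distance at least two. -/
lemma adjust (R : ℝ) (hR : R ^ 2 = 4 / 3) (hR0 : 0 < R) {ι : Type*} (α : ι → ℝ) (β : ι → Y)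
    (hα : ∀ i, 0 ≤ α i) (p : ι) (ℓ : ℝ) (u : Y) (hu : ‖u‖ = 1) (hℓ : 0 ≤ ℓ)
    (hℓ3 : ℓ ^ 2 ≤ 1 / 3)
    (h0 : 4 ≤ (α p + √(4 / 3 - ℓ ^ 2)) ^ 2 + ‖β p + ℓ • u‖ ^ 2)
    (hoth : ∀ i, i ≠ p → R ≤ α i + 1 ∧ ∀ τ : ℝ, 0 ≤ τ → τ ≤ ℓ →
      4 ≤ (α i + √(4 / 3 - τ ^ 2)) ^ 2 + ‖β i + τ • u‖ ^ 2) :
    ∃ (t : ℝ) (b : Y), 1 ≤ t ∧ t ^ 2 + ‖b‖ ^ 2 = 4 / 3 ∧
      ∀ i, 4 ≤ (α i + t) ^ 2 + ‖β i + b‖ ^ 2 ∧ (R ≤ α i + t ∨ ‖β i + b‖ ^ 2 ≤ 3) := by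
  obtain ⟨τ, hτ0, hτℓ, h4, hor⟩ := arc (α p) ℓ (β p) u hℓ h0
  have hτ3 : τ ^ 2 ≤ 1 / 3 := (pow_le_pow_left₀ hτ0 hτℓ 2).trans hℓ3
  have ht2 : (√(4 / 3 - τ ^ 2)) ^ 2 = 4 / 3 - τ ^ 2 := Real.sq_sqrt (by linarith)
  have ht1 : 1 ≤ √(4 / 3 - τ ^ 2) := by
    apply Real.le_sqrt_of_sq_le
    linarith
  have hb : ‖τ • u‖ = τ := by rw [norm_smul, hu, mul_one, Real.norm_eq_abs, abs_of_nonneg hτ0]
  refine ⟨√(4 / 3 - τ ^ 2), τ • u, ht1, by rw [hb, ht2]; ring, fun i => ?_⟩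
  by_cases hi : i = p
  · subst hi
    refine ⟨h4, ?_⟩
    rcases hor with h | h
    · left
      have hRt : R = √(4 / 3 - τ ^ 2) := by
        have : R ^ 2 = (√(4 / 3 - τ ^ 2)) ^ 2 := by rw [hR, ht2, h]; ring
        exact (pow_left_inj₀ hR0.le (by linarith) (by norm_num)).1 this
      rw [← hRt]; linarith [hα i]
    · right
      have h5 : (1:ℝ) ^ 2 ≤ (α i + √(4 / 3 - τ ^ 2)) ^ 2 :=
        pow_le_pow_left₀ (by norm_num) (by linarith [hα i]) 2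
      linarith
  · obtain ⟨h5, h6⟩ := hoth i hi
    exact ⟨h6 τ hτ0 hτℓ, Or.inl (by linarith)⟩

/-- Two centres which are close to each other in the `ℓ₁`-part. -/
lemma two_close (R : ℝ) (hR : R ^ 2 = 4 / 3) (hR0 : 0 < R) (hR15 : R ≤ 7 / 6) {ι : Type*}
    (α : ι → ℝ) (β : ι → Y) (hα : ∀ i, 0 ≤ α i) (hunc : ∀ i, 4 / 3 ≤ α i ^ 2 + ‖β i‖ ^ 2)
    (p q : ι) (s : ℝ) (hs : s = α p + α q) (hs1 : 1 ≤ s)
    (hle : α p ≤ α q) (hD : α p ^ 2 + α p * α q + α q ^ 2 < 1)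
    (hPQ : ‖β p - β q‖ ^ 2 ≤ 3) (hothers : ∀ j, j ≠ p → j ≠ q → 3 - s ≤ 2 * α j) :
    ∃ (t : ℝ) (b : Y), 1 ≤ t ∧ t ^ 2 + ‖b‖ ^ 2 = 4 / 3 ∧
      ∀ i, 4 ≤ (α i + t) ^ 2 + ‖β i + b‖ ^ 2 ∧ (R ≤ α i + t ∨ ‖β i + b‖ ^ 2 ≤ 3) := by
  have hp := hα p
  have hq := hα q
  have hs2 : 3 * s ^ 2 < 4 := by rw [hs]; exact sum_lt hD
  obtain ⟨ℓ, hℓ0, hℓ2⟩ : ∃ ℓ : ℝ, 0 < ℓ ∧ ℓ ^ 2 = 4 / 3 - s ^ 2 :=
    ⟨√(4 / 3 - s ^ 2), Real.sqrt_pos.2 (by linarith), Real.sq_sqrt (by linarith)⟩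
  obtain ⟨b, hbn, hbp, hbq⟩ := two_caps (α p) (α q) s ℓ (β p) (β q) hp hq hs hs1 hD (hunc p)
    (hunc q) hPQ hℓ0 hℓ2
  by_cases hbig : R ≤ α p + s
  · refine ⟨s, b, hs1, by rw [hbn, hℓ2]; ring, fun i => ?_⟩
    by_cases hip : i = p
    · subst hip; exact ⟨hbp, Or.inl hbig⟩
    by_cases hiq : i = q
    · subst hiq; exact ⟨hbq, Or.inl (by linarith)⟩
    have := hothers i hip hiq
    have h2 : 2 ≤ α i + s := by linarith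
    exact ⟨four_le h2, Or.inl (by linarith)⟩
  push Not at hbig
  have hp6 : α p ≤ 1 / 6 := by linarith
  have hq56 : 5 / 6 ≤ α q := by linarith
  obtain ⟨u, hun, hbu⟩ : ∃ u : Y, ‖u‖ = 1 ∧ ℓ • u = b := by
    refine ⟨ℓ⁻¹ • b, ?_, by rw [smul_smul, mul_inv_cancel₀ hℓ0.ne', one_smul]⟩
    rw [norm_smul, hbn, norm_inv, Real.norm_eq_abs, abs_of_pos hℓ0]
    exact inv_mul_cancel₀ hℓ0.ne'
  have hsq : √(4 / 3 - ℓ ^ 2) = s := by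
    rw [hℓ2]
    have : 4 / 3 - (4 / 3 - s ^ 2) = s ^ 2 := by ring
    rw [this]
    exact Real.sqrt_sq (by linarith)
  have hs12 : 1 ≤ s ^ 2 := one_le_pow₀ hs1
  have hst : ∀ τ : ℝ, 0 ≤ τ → τ ≤ ℓ → s ≤ √(4 / 3 - τ ^ 2) ∧
      (√(4 / 3 - τ ^ 2)) ^ 2 = 4 / 3 - τ ^ 2 := by
    intro τ hτ0 hτℓ
    have hτ2 : τ ^ 2 ≤ ℓ ^ 2 := pow_le_pow_left₀ hτ0 hτℓ 2
    exact ⟨Real.le_sqrt_of_sq_le (by linarith), Real.sq_sqrt (by linarith)⟩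
  refine adjust R hR hR0 α β hα p ℓ u hun hℓ0.le (by linarith)
    (by rw [hsq, hbu]; exact hbp) ?_
  intro i hip
  by_cases hiq : i = q
  · subst hiq
    refine ⟨by linarith, fun τ hτ0 hτℓ => ?_⟩
    obtain ⟨h5, h6⟩ := hst τ hτ0 hτℓ
    have e1 : ‖β i + τ • u‖ ^ 2 = ‖β i‖ ^ 2 + 2 * τ * inner ℝ (β i) u + τ ^ 2 := by
      rw [norm_add_sq_real, inner_smul_right, norm_smul, hun, mul_one, Real.norm_eq_abs,
        sq_abs]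
      ring
    have e2 : ‖β i + b‖ ^ 2 = ‖β i‖ ^ 2 + 2 * ℓ * inner ℝ (β i) u + ℓ ^ 2 := by
      rw [← hbu, norm_add_sq_real, inner_smul_right, norm_smul, hun, mul_one,
        Real.norm_eq_abs, sq_abs]
      ring
    rw [e1]
    rcases le_total 0 (inner ℝ (β i) u) with hpos | hneg
    · refine pos_case (hunc i) (mul_nonneg hτ0 hpos) ?_ h6
      have : 5 / 6 * 1 ≤ α i * √(4 / 3 - τ ^ 2) :=
        mul_le_mul hq56 (by linarith) (by norm_num) (by linarith)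
      linarith
    · rw [e2] at hbq
      exact neg_case hbq (mul_le_mul_of_nonpos_right hτℓ hneg)
        (mul_le_mul_of_nonneg_left h5 hq) h6 hℓ2
  · have := hothers i hip hiq
    refine ⟨by linarith, fun τ hτ0 hτℓ => ?_⟩
    obtain ⟨h5, h6⟩ := hst τ hτ0 hτℓ
    exact four_le (by linarith)

/-- Only one centre is close in the `ℓ₁`-part. -/
lemma one_close (R : ℝ) (hR : R ^ 2 = 4 / 3) (hR0 : 0 < R) (hR15 : R ≤ 7 / 6) {ι : Type*}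
    (α : ι → ℝ) (β : ι → Y) (hα : ∀ i, 0 ≤ α i) (hunc : ∀ i, 4 / 3 ≤ α i ^ 2 + ‖β i‖ ^ 2)
    (o : ι) (ho : (α o + R) ^ 2 + ‖β o‖ ^ 2 < 4)
    (hB : ∀ i, i ≠ o → 1 ≤ α o ^ 2 + α o * α i + α i ^ 2) :
    ∃ (t : ℝ) (b : Y), 1 ≤ t ∧ t ^ 2 + ‖b‖ ^ 2 = 4 / 3 ∧
      ∀ i, 4 ≤ (α i + t) ^ 2 + ‖β i + b‖ ^ 2 ∧ (R ≤ α i + t ∨ ‖β i + b‖ ^ 2 ≤ 3) := by
  have ha0 : 0 ≤ α o := hα o
  have hunco := hunc o
  have ha3 : 3 * α o ^ 2 < 1 := by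
    by_contra hlt
    push Not at hlt
    have h5 := prod_le R (α o) hR hR0 ha0 hlt
    have e : (α o + R) ^ 2 = α o ^ 2 + 2 * (α o * R) + R ^ 2 := by ring
    rw [e, hR] at ho
    linarith
  obtain ⟨T, hTe, hT1, hT2a, hTR, hTa⟩ := params R (α o) hR hR0 ha0 ha3
  have hT43 : T ^ 2 ≤ 4 / 3 := by rw [← hR]; exact pow_le_pow_left₀ (by linarith) hTR 2
  have hT12 : 1 ≤ T ^ 2 := one_le_pow₀ hT1
  obtain ⟨y, hy0, hy2⟩ : ∃ y : ℝ, 0 ≤ y ∧ y ^ 2 = 4 / 3 - T ^ 2 :=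
    ⟨√(4 / 3 - T ^ 2), Real.sqrt_nonneg _, Real.sq_sqrt (by linarith)⟩
  have hβ0 : 0 < ‖β o‖ := by
    rcases (norm_nonneg (β o)).lt_or_eq with h | h
    · exact h
    · rw [← h] at hunco; linarith
  obtain ⟨u, hun, hsum⟩ : ∃ u : Y, ‖u‖ = 1 ∧ ‖β o + y • u‖ = ‖β o‖ + y := by
    refine ⟨(‖β o‖)⁻¹ • β o, ?_, ?_⟩
    · rw [norm_smul, norm_inv, norm_norm]
      exact inv_mul_cancel₀ hβ0.ne'
    · have e : β o + y • ((‖β o‖)⁻¹ • β o) = (1 + y * (‖β o‖)⁻¹) • β o := by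
        rw [smul_smul, add_smul, one_smul]
      rw [e, norm_smul, Real.norm_eq_abs, abs_of_nonneg (by positivity)]
      field_simp
  have hsq : √(4 / 3 - y ^ 2) = T := by
    rw [hy2]
    have : 4 / 3 - (4 / 3 - T ^ 2) = T ^ 2 := by ring
    rw [this]
    exact Real.sqrt_sq (by linarith)
  refine adjust R hR hR0 α β hα o y u hun hy0 (by linarith) ?_ ?_
  · rw [hsq, hsum]
    exact slack_zero (α o) T ‖β o‖ y hTe hT43 hβ0.le hy0 hunco hy2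
  · intro i hi
    have hαi := hα i
    have h6 : T - α o ≤ α i := root_le T (α o) (α i) ha0 hαi hTa hTe (hB i hi)
    refine ⟨by linarith, fun τ hτ0 hτy => ?_⟩
    have hτ2 : τ ^ 2 ≤ y ^ 2 := pow_le_pow_left₀ hτ0 hτy 2
    have ht2 : (√(4 / 3 - τ ^ 2)) ^ 2 = 4 / 3 - τ ^ 2 := Real.sq_sqrt (by linarith)
    have hTt : T ≤ √(4 / 3 - τ ^ 2) := Real.le_sqrt_of_sq_le (by linarith)
    have ht7 : √(4 / 3 - τ ^ 2) ≤ 7 / 6 := by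
      apply Real.sqrt_le_iff.2
      constructor
      · norm_num
      · linarith [sq_nonneg τ]
    have hbn : ‖τ • u‖ = τ := by
      rw [norm_smul, hun, mul_one, Real.norm_eq_abs, abs_of_nonneg hτ0]
    refine far (α i) _ (β i) (τ • u) hαi (by linarith) (by rw [hbn, ht2]; ring) ?_ ?_ (hunc i)
    · exact far_cond T (α o) (α i) _ hT1 h6 hT2a hTe hTt ht7
    · have e1 : (T - α o) * T ≤ α i * √(4 / 3 - τ ^ 2) :=
        mul_le_mul h6 hTt (by linarith) hαi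
      have e2 : (T - α o) * T = T ^ 2 - α o * T := by ring
      rw [e2] at e1
      linarith

/-- **The choice of the new centre.** -/
theorem choose_w (R : ℝ) (hR : R ^ 2 = 4 / 3) (hR0 : 0 < R) {ι : Type*} (α : ι → ℝ) (β : ι → Y)
    (δ : ι → ι → ℝ) (hα : ∀ i, 0 ≤ α i) (hunc : ∀ i, 4 / 3 ≤ α i ^ 2 + ‖β i‖ ^ 2)
    (hδ : ∀ i j, δ i j ≤ α i + α j)
    (h1 : ∀ i j, i ≠ j → 1 ≤ δ i j)
    (h4 : ∀ i j, i ≠ j → R ≤ δ i j ∨ ‖β i - β j‖ ^ 2 ≤ 3)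
    (h3 : ∀ i j k, i ≠ j → i ≠ k → j ≠ k → 2 + δ i j ≤ δ i k + δ j k ∨
      2 + δ i k ≤ δ i j + δ j k ∨ 2 + δ j k ≤ δ i j + δ i k) :
    ∃ (t : ℝ) (b : Y), 1 ≤ t ∧ t ^ 2 + ‖b‖ ^ 2 = 4 / 3 ∧
      ∀ i, 4 ≤ (α i + t) ^ 2 + ‖β i + b‖ ^ 2 ∧ (R ≤ α i + t ∨ ‖β i + b‖ ^ 2 ≤ 3) := by
  have hR1 : 1 ≤ R := by nlinarith
  have hR15 : R ≤ 7 / 6 := by nlinarith
  by_cases hV : ∀ i, 4 ≤ (α i + R) ^ 2 + ‖β i‖ ^ 2
  · refine ⟨R, 0, hR1, by rw [hR, norm_zero]; ring, fun i => ⟨by rw [add_zero]; exact hV i,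
      Or.inl (by linarith [hα i])⟩⟩
  push Not at hV
  obtain ⟨o, ho⟩ := hV
  by_cases hB : ∃ i, i ≠ o ∧ α o ^ 2 + α o * α i + α i ^ 2 < 1
  · obtain ⟨p, q, hpq, hle, hD⟩ : ∃ p q, p ≠ q ∧ α p ≤ α q ∧
        α p ^ 2 + α p * α q + α q ^ 2 < 1 := by
      obtain ⟨i, hi, hD⟩ := hB
      rcases le_total (α o) (α i) with h | h
      · exact ⟨o, i, hi.symm, h, hD⟩
      · exact ⟨i, o, hi, h, by linarith⟩
    have hp := hα p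
    have hq := hα q
    have hs1 : 1 ≤ α p + α q := (h1 p q hpq).trans (hδ p q)
    have hsR : α p + α q < R := by
      have := sum_lt hD
      apply lt_of_pow_lt_pow_left₀ 2 hR0.le
      linarith
    have hPQ : ‖β p - β q‖ ^ 2 ≤ 3 := by
      rcases h4 p q hpq with h | h
      · linarith [hδ p q]
      · exact h
    refine two_close R hR hR0 hR15 α β hα hunc p q _ rfl hs1 hle hD hPQ ?_
    intro j hjp hjq
    have e1 := hδ p j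
    have e2 := hδ q j
    have e3 := hδ p q
    have e4 := h1 p q hpq
    have e5 := h1 p j hjp.symm
    have e6 := h1 q j hjq.symm
    have c1 : 3 * α p + α q ≤ 3 := three_le hq hD
    have c2 : 3 * α q + α p ≤ 3 := three_le hp (by linarith)
    rcases h3 p q j hpq hjp.symm hjq.symm with h | h | h <;> linarith
  · push Not at hB
    exact one_close R hR hR0 hR15 α β hα hunc o ho hB

end Pool.Agent.K4H44.PCW
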