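import Pool.Agent.K4H59.TL.Spec

open Set

namespace Pool.Agent.K4H59.TL

open Pool.Agent.K4H72.Til (IsPolygon ShareEdge IsTiling Tile Derivable Adj HasLocEig)

namespace H44G8

theorem clm_apply (f : ℂ →L[ℝ] ℝ) (z : ℂ) : f z = z.re * f 1 + z.im * f Complex.I := by
  have h : z = z.re • (1 : ℂ) + z.im • Complex.I := by
    simp [Complex.re_add_im]
  conv_lhs => rw [h]
  rw [map_add, map_smul, map_smul, smul_eq_mul, smul_eq_mul]

theorem mult {f : ℂ →L[ℝ] ℝ} (hf : f ≠ 0) {u v : ℂ} (hu : u ≠ 0) (fu : f u = 0) (fv : f v = 0) :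
    ∃ s : ℝ, v = s • u := by
  rw [clm_apply] at fu fv
  set A := f 1 with hA
  set B := f Complex.I with hB
  have hAB : A ≠ 0 ∨ B ≠ 0 := by
    by_contra hc
    push Not at hc
    apply hf
    ext z
    rw [clm_apply, ← hA, ← hB, hc.1, hc.2]
    simp
  have det : u.re * v.im - u.im * v.re = 0 := by
    rcases hAB with h | h
    · have : A * (u.re * v.im - u.im * v.re) = 0 := by linear_combination v.im * fu - u.im * fv
      exact (mul_eq_zero.1 this).resolve_left h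
    · have : B * (u.re * v.im - u.im * v.re) = 0 := by linear_combination u.re * fv - v.re * fu
      exact (mul_eq_zero.1 this).resolve_left h
  have hn : u.re ^ 2 + u.im ^ 2 ≠ 0 := by
    intro h
    apply hu
    have h1 : u.re = 0 := by nlinarith [sq_nonneg u.re, sq_nonneg u.im]
    have h2 : u.im = 0 := by nlinarith [sq_nonneg u.re, sq_nonneg u.im]
    exact Complex.ext h1 h2
  refine ⟨(v.re * u.re + v.im * u.im) / (u.re ^ 2 + u.im ^ 2), Complex.ext ?_ ?_⟩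
  · simp only [Complex.smul_re, smul_eq_mul]
    rw [div_mul_eq_mul_div, eq_div_iff hn]
    linear_combination (-u.im) * det
  · simp only [Complex.smul_im, smul_eq_mul]
    rw [div_mul_eq_mul_div, eq_div_iff hn]
    linear_combination (u.re) * det

theorem mem_iff {H : Finset (ℂ →L[ℝ] ℝ)} {f h : ℂ →L[ℝ] ℝ} {O u : ℂ} {j : ℕ} (fu : f u = 0) (s : ℝ) :
    O + s • u ∈ pc H f O h j ↔ (∀ h' ∈ H, s * h' u ≤ s * h u) ∧ (1 / 2 : ℝ) ^ (j + 1) ≤ s * h u ∧
      s * h u ≤ 2 * (1 / 2 : ℝ) ^ (j + 1) := by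
  have e : (1 / 2 : ℝ) ^ j = 2 * (1 / 2 : ℝ) ^ (j + 1) := by rw [pow_succ]; ring
  simp only [pc, Set.mem_ofPred_eq, add_sub_cancel_left, map_smul, smul_eq_mul, fu, mul_zero, le_refl, true_and, e]

/-- along a line through the centre the piece is a segment -/
theorem seg {H : Finset (ℂ →L[ℝ] ℝ)} {f h : ℂ →L[ℝ] ℝ} {O u : ℂ} {j : ℕ} (fu : f u = 0) {s₀ : ℝ}
    (hs₀ : O + s₀ • u ∈ pc H f O h j) :
    ((0 < h u ∧ (∀ h' ∈ H, h' u ≤ h u)) ∨ h u < 0) ∧
      ∀ s : ℝ, O + s • u ∈ pc H f O h j ↔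
        (1 / 2 : ℝ) ^ (j + 1) ≤ s * h u ∧ s * h u ≤ 2 * (1 / 2 : ℝ) ^ (j + 1) := by
  have hp : (0 : ℝ) < (1 / 2 : ℝ) ^ (j + 1) := by positivity
  rw [mem_iff fu] at hs₀
  obtain ⟨h1, h2, h3⟩ := hs₀
  rcases lt_trichotomy (h u) 0 with hu | hu | hu
  · refine ⟨Or.inr hu, fun s => ?_⟩
    rw [mem_iff fu]
    refine ⟨fun h => h.2, fun hh => ⟨fun h' hh' => ?_, hh⟩⟩
    have s0 : s₀ < 0 := by
      by_contra hc
      push Not at hc
      nlinarith [mul_nonneg hc (neg_pos.2 hu).le]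
    have ss : s < 0 := by
      by_contra hc
      push Not at hc
      nlinarith [mul_nonneg hc (neg_pos.2 hu).le, hh.1]
    have := h1 h' hh'
    have h4 : h u ≤ h' u := (mul_le_mul_left_of_neg s0).1 this
    exact mul_le_mul_of_nonpos_left h4 ss.le
  · rw [hu, mul_zero] at h2
    linarith
  · have s0 : 0 < s₀ := by
      by_contra hc
      push Not at hc
      nlinarith [mul_nonneg (neg_nonneg.2 hc) hu.le]
    have h4 : ∀ h' ∈ H, h' u ≤ h u := fun h' hh' => le_of_mul_le_mul_left (h1 h' hh') s0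
    refine ⟨Or.inl ⟨hu, h4⟩, fun s => ?_⟩
    rw [mem_iff fu]
    refine ⟨fun h => h.2, fun hh => ⟨fun h' hh' => ?_, hh⟩⟩
    have ss : 0 < s := by
      by_contra hc
      push Not at hc
      nlinarith [mul_nonneg (neg_nonneg.2 hc) hu.le, hh.1]
    exact mul_le_mul_of_nonneg_left (h4 h' hh') ss.le

/-- the arithmetic of the two segments -/
theorem arith {a b α β : ℝ} (ha : 0 < a) (hb : 0 < b) (hα : α = 1 / 2 ∨ α < 0) (hβ : 0 < β ∨ β < 0)
    (h : ∀ s : ℝ, (a ≤ s * α ∧ s * α ≤ 2 * a) ↔ (b ≤ (s - 1) * β ∧ (s - 1) * β ≤ 2 * b)) : 6 * a = 1 := by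
  have hα0 : α ≠ 0 := by
    rcases hα with h | h
    · rw [h]; norm_num
    · exact h.ne
  have hβ0 : β ≠ 0 := by
    rcases hβ with h | h
    · exact h.ne'
    · exact h.ne
  have A1 : a / α * α = a := div_mul_cancel₀ _ hα0
  have B1 : b / β * β = b := div_mul_cancel₀ _ hβ0
  set p := a / α with hp
  set q := b / β with hq
  have e1 := (h p).1 (by rw [A1]; constructor <;> linarith)
  have e2 := (h (2 * p)).1 (by rw [mul_assoc, A1]; constructor <;> linarith)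
  have e3 := (h (1 + q)).2 (by rw [add_sub_cancel_left, B1]; constructor <;> linarith)
  have e4 := (h (1 + 2 * q)).2 (by rw [add_sub_cancel_left, mul_assoc, B1]; constructor <;> linarith)
  have hα' : 0 < α ∨ α < 0 := by
    rcases hα with h | h
    · left; rw [h]; norm_num
    · right; exact h
  rw [← A1] at e3 e4
  rw [← B1] at e1 e2
  rw [← mul_assoc] at e1 e2 e3 e4
  rcases hα' with h1 | h1 <;> rcases hβ with h2 | h2
  · have u1 := le_of_mul_le_mul_right e1.1 h2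
    have u2 := le_of_mul_le_mul_right e3.1 h1
    have u3 := le_of_mul_le_mul_right e2.2 h2
    have u4 := le_of_mul_le_mul_right e4.2 h1
    linarith
  · have u1 : p - 1 ≥ 2 * q := by
      have := e1.2
      by_contra hc
      push Not at hc
      nlinarith [mul_pos (sub_pos.2 hc) (neg_pos.2 h2)]
    have u2 : 2 * p - 1 ≤ q := by
      have := e2.1
      by_contra hc
      push Not at hc
      nlinarith [mul_pos (sub_pos.2 hc) (neg_pos.2 h2)]
    have u3 := le_of_mul_le_mul_right e4.1 h1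
    have u4 := le_of_mul_le_mul_right e3.2 h1
    have u5 : 3 * p = 1 := by linarith
    have u6 : α = 1 / 2 := by
      rcases hα with h | h
      · exact h
      · linarith
    rw [u6] at A1
    linarith
  · exfalso
    have p0 : p < 0 := by
      rw [hp]; exact div_neg_of_pos_of_neg ha h1
    have := e1.1
    rw [B1] at this
    nlinarith
  · exfalso
    have n1 : p - 1 ≤ q := by
      have := e1.1
      by_contra hc
      push Not at hc
      nlinarith [mul_pos (sub_pos.2 hc) (neg_pos.2 h2)]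
    have n2 : 2 * p - 1 ≥ 2 * q := by
      have := e2.2
      by_contra hc
      push Not at hc
      nlinarith [mul_pos (sub_pos.2 hc) (neg_pos.2 h2)]
    have n3 : 1 + q ≤ p := by
      have := e3.1
      by_contra hc
      push Not at hc
      nlinarith [mul_pos (sub_pos.2 hc) (neg_pos.2 h1)]
    have n4 : 1 + 2 * q ≥ 2 * p := by
      have := e4.2
      by_contra hc
      push Not at hc
      nlinarith [mul_pos (sub_pos.2 hc) (neg_pos.2 h1)]
    linarith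

/-- an edge inside a line is the whole intersection with the line -/
theorem edge_eq {K e : Set ℂ} (he : IsEdge K e) {O u : ℂ} (hsub : ∀ x ∈ e, ∃ s : ℝ, x = O + s • u) (s : ℝ) :
    O + s • u ∈ e ↔ O + s • u ∈ K := by
  obtain ⟨hn, φ, c, hφ, hle, rfl⟩ := he
  refine ⟨fun h => h.1, fun h => ⟨h, ?_⟩⟩
  obtain ⟨p, hp, q, hq, hpq⟩ := hn
  obtain ⟨s₁, rfl⟩ := hsub p hp
  obtain ⟨s₂, rfl⟩ := hsub q hq
  have h1 := hp.2
  have h2 := hq.2
  rw [map_add, map_smul, smul_eq_mul] at h1 h2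
  have hs : s₁ ≠ s₂ := by
    rintro rfl; exact hpq rfl
  have h3 : (s₁ - s₂) * φ u = 0 := by linarith
  have h4 : φ u = 0 := (mul_eq_zero.1 h3).resolve_left (sub_ne_zero.2 hs)
  rw [map_add, map_smul, smul_eq_mul, h4, mul_zero]
  rw [h4, mul_zero] at h1
  exact h1

end H44G8

open H44G8 in
/-- PIECE G8. -/
theorem pc_no_share {K : Set ℂ} {f₀ h h' : ℂ →L[ℝ] ℝ} {j j' : ℕ} {O₁ O₂ : ℂ} {H₁ H₂ : Finset (ℂ →L[ℝ] ℝ)}
    (hf : f₀ ≠ 0) (R1 : Rep K O₁ H₁)
    (R2 : Rep K O₂ H₂) (h12 : f₀ (O₂ - O₁) = 0) (hne : O₁ ≠ O₂) (hB1 : ∀ h ∈ H₁, h (O₂ - O₁) ≤ 1 / 2)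
    (hB2 : ∃ h ∈ H₁, h (O₂ - O₁) = 1 / 2) (hA : Act H₁ f₀ h) (hA' : Act H₂ (-f₀) h') :
    ¬ Share (pc H₁ f₀ O₁ h j) (pc H₂ (-f₀) O₂ h' j') := by
  rintro ⟨e, he1, he2⟩
  have hs1 : e ⊆ pc H₁ f₀ O₁ h j := by
    obtain ⟨-, φ, c, -, -, rfl⟩ := he1
    exact fun x hx => hx.1
  have hs2 : e ⊆ pc H₂ (-f₀) O₂ h' j' := by
    obtain ⟨-, φ, c, -, -, rfl⟩ := he2
    exact fun x hx => hx.1
  obtain ⟨u, hu⟩ : ∃ u, u = O₂ - O₁ := ⟨_, rfl⟩
  rw [← hu] at h12 hB1 hB2
  have hO : O₂ = O₁ + u := by rw [hu]; ring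
  have hu0 : u ≠ 0 := by
    rw [hu]; exact sub_ne_zero.2 hne.symm
  have hL : ∀ x ∈ e, ∃ s : ℝ, x = O₁ + s • u := by
    intro x hx
    have a1 : f₀ (x - O₁) ≤ 0 := (hs1 hx).1
    have a2 : (-f₀) (x - O₂) ≤ 0 := (hs2 hx).1
    have a3 : x - O₂ = (x - O₁) - u := by rw [hO]; ring
    rw [a3, ContinuousLinearMap.neg_apply, map_sub, h12] at a2
    have a4 : f₀ (x - O₁) = 0 := by linarith
    obtain ⟨s, hs⟩ := mult hf hu0 h12 a4
    exact ⟨s, by rw [← hs]; ring⟩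
  have key : ∀ s : ℝ, O₁ + s • u = O₂ + (s - 1) • u := by
    intro s
    rw [hO, sub_smul, one_smul]; ring
  have hL2 : ∀ x ∈ e, ∃ s : ℝ, x = O₂ + s • u := by
    intro x hx
    obtain ⟨s, hs⟩ := hL x hx
    exact ⟨s - 1, by rw [← key]; exact hs⟩
  have k1 := edge_eq he1 hL
  have k2 := edge_eq he2 hL2
  obtain ⟨p, hp⟩ := he1.1.nonempty
  obtain ⟨s₀, rfl⟩ := hL p hp
  have fu' : (-f₀) u = 0 := by rw [ContinuousLinearMap.neg_apply, h12, neg_zero]
  have S1 := seg (H := H₁) (h := h) (j := j) h12 (hs1 hp)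
  have S2 := seg (H := H₂) (h := h') (j := j') (s₀ := s₀ - 1) fu' (by rw [← key]; exact hs2 hp)
  have hα : h u = 1 / 2 ∨ h u < 0 := by
    rcases S1.1 with ⟨h1, h2⟩ | h1
    · left
      obtain ⟨g, hg, hg2⟩ := hB2
      have := h2 g hg
      have := hB1 h hA.1
      linarith
    · exact Or.inr h1
  have hβ : 0 < h' u ∨ h' u < 0 := by
    rcases S2.1 with ⟨h1, h2⟩ | h1
    · exact Or.inl h1
    · exact Or.inr h1
  have := arith (a := (1 / 2 : ℝ) ^ (j + 1)) (b := (1 / 2 : ℝ) ^ (j' + 1)) (by positivity) (by positivity) hα hβ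
    (fun s => by
      rw [← S1.2 s, ← S2.2 (s - 1), ← k1, ← k2, key])
  rw [one_div, inv_pow, ← div_eq_mul_inv, div_eq_iff (by positivity), one_mul] at this
  have h6 : (6 : ℕ) = 2 ^ (j + 1) := by exact_mod_cast this
  rcases j with _ | _ | j
  · norm_num at h6
  · norm_num at h6
  · have : 2 ^ (j + 1 + 1 + 1) = 8 * 2 ^ j := by ring
    omega

end Pool.Agent.K4H59.TL
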