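import Pool.Agent.K4H72.Til.Spec

open Set

namespace Pool.Agent.K4H72.Til

theorem radius (h : ℝ) (g : ℤ × ℤ → ℂ) (hg : Def1 h g) (v : ℤ × ℤ) (z : ℂ)
    (hz : ∀ e ∈ six, ‖z - g v‖ ≤ ‖z - g (v + e)‖) : ‖z - g v‖ ≤ 7 / 10 * h := by
  obtain ⟨hh, hdef⟩ := hg
  set z' : ℂ := z - g v with hz'
  set N : ℝ := ‖z'‖ with hN
  have hN0 : 0 ≤ N := norm_nonneg _
  have s3 : Real.sqrt 3 ^ 2 = 3 := Real.sq_sqrt (by norm_num)
  have s3' : 0 < Real.sqrt 3 := Real.sqrt_pos.2 (by norm_num)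
  -- the coordinates of the units
  have Ere : ∀ e : ℤ × ℤ, (E e).re = (e.1 : ℝ) + e.2 / 2 := by
    intro e; simp [E, ζ]; ring
  have Eim : ∀ e : ℤ × ℤ, (E e).im = (e.2 : ℝ) * (Real.sqrt 3 / 2) := by
    intro e; simp [E, ζ]
  have nE : ∀ e : ℤ × ℤ, ‖E e‖ ^ 2 = (e.1 : ℝ) ^ 2 + e.1 * e.2 + (e.2 : ℝ) ^ 2 := by
    intro e
    rw [Complex.sq_norm, Complex.normSq_apply, Ere, Eim]
    nlinarith [s3]
  have key : ∀ e ∈ six, ‖E e‖ ^ 2 = 1 →
      2 * (z'.re * (E e).re + z'.im * (E e).im) ≤ h * (21 / 20) ^ 2 + 1 / 10 * N := by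
    intro e he hE1
    have hE : ‖E e‖ = 1 := by
      have := norm_nonneg (E e)
      nlinarith
    have h1 := hdef (v + e) v
    rw [add_sub_cancel_left, hE, mul_one] at h1
    set w : ℂ := g (v + e) - g v with hw
    have h2 := hz e he
    have e1 : z - g (v + e) = z' - w := by rw [hz', hw]; ring
    rw [e1] at h2
    have h3 : ‖z'‖ ^ 2 ≤ ‖z' - w‖ ^ 2 := by gcongr
    have h4 : ‖z' - w‖ ^ 2 = ‖z'‖ ^ 2 - 2 * (z'.re * w.re + z'.im * w.im) + ‖w‖ ^ 2 := by
      rw [Complex.sq_norm, Complex.sq_norm, Complex.sq_norm, Complex.normSq_apply,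
        Complex.normSq_apply, Complex.normSq_apply, Complex.sub_re, Complex.sub_im]
      ring
    set d : ℂ := w - (h : ℂ) * E e with hd
    have h5 : ‖w‖ ≤ 21 / 20 * h := by
      have : w = d + (h : ℂ) * E e := by rw [hd]; ring
      rw [this]
      refine (norm_add_le _ _).trans ?_
      rw [norm_mul, hE, Complex.norm_real, Real.norm_of_nonneg hh.le]
      linarith
    have h6 : |z'.re * d.re + z'.im * d.im| ≤ N * ‖d‖ := by
      rw [← Real.sqrt_sq_eq_abs]
      rw [Real.sqrt_le_left (by positivity)]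
      rw [mul_pow, hN, Complex.sq_norm, Complex.sq_norm, Complex.normSq_apply, Complex.normSq_apply]
      nlinarith [sq_nonneg (z'.re * d.im - z'.im * d.re)]
    have h7 : N * ‖d‖ ≤ N * (1 / 20 * h) := by gcongr
    have e2 : w.re = d.re + h * (E e).re := by rw [hd]; simp
    have e3 : w.im = d.im + h * (E e).im := by rw [hd]; simp
    have h8 : ‖w‖ ^ 2 ≤ (21 / 20 * h) ^ 2 := by gcongr
    have h9 := (abs_le.1 h6).1
    have h10 : h * (2 * (z'.re * (E e).re + z'.im * (E e).im)) ≤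
        h * (h * (21 / 20) ^ 2 + 1 / 10 * N) := by
      rw [e2, e3] at h4
      nlinarith
    exact le_of_mul_le_mul_left h10 hh
  have m : ∀ e ∈ six, ‖E e‖ ^ 2 = 1 := by
    intro e he
    rw [nE]
    simp only [six, Finset.mem_insert, Finset.mem_singleton] at he
    rcases he with rfl | rfl | rfl | rfl | rfl | rfl <;> norm_num
  have k1 := key (1, 0) (by simp [six]) (m _ (by simp [six]))
  have k2 := key (-1, 0) (by simp [six]) (m _ (by simp [six]))
  have k3 := key (0, 1) (by simp [six]) (m _ (by simp [six]))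
  have k4 := key (0, -1) (by simp [six]) (m _ (by simp [six]))
  have k5 := key (1, -1) (by simp [six]) (m _ (by simp [six]))
  have k6 := key (-1, 1) (by simp [six]) (m _ (by simp [six]))
  simp only [Ere, Eim] at k1 k2 k3 k4 k5 k6
  push_cast at k1 k2 k3 k4 k5 k6
  set A : ℝ := h * (21 / 20) ^ 2 + 1 / 10 * N with hA
  have hNN : N ^ 2 = z'.re ^ 2 + z'.im ^ 2 := by
    rw [hN, Complex.sq_norm, Complex.normSq_apply]; ring
  set s : ℝ := 2 * z'.re with hs
  set t : ℝ := z'.re + Real.sqrt 3 * z'.im with ht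
  have q1 : s ≤ A := by rw [hs]; linarith
  have q2 : -s ≤ A := by rw [hs]; linarith
  have q3 : t ≤ A := by rw [ht]; linarith
  have q4 : -t ≤ A := by rw [ht]; linarith
  have q5 : s - t ≤ A := by rw [hs, ht]; linarith
  have q6 : t - s ≤ A := by rw [hs, ht]; linarith
  have q7 : 3 * N ^ 2 = s ^ 2 - s * t + t ^ 2 := by
    rw [hNN, hs, ht]; nlinarith [s3]
  have hA0 : 0 ≤ A := by positivity
  have q8 : s ^ 2 - s * t + t ^ 2 ≤ A ^ 2 := by
    rcases le_total 0 s with hs0 | hs0 <;> rcases le_total 0 t with ht0 | ht0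
    · rcases le_total s t with hst | hst
      · nlinarith
      · nlinarith
    · nlinarith
    · nlinarith
    · rcases le_total s t with hst | hst
      · nlinarith
      · nlinarith
  by_contra hcon
  push Not at hcon
  have q9 : A < 1.6751 * N := by
    rw [hA]; nlinarith
  nlinarith

end Pool.Agent.K4H72.Til
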